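import Pool.Agent.Lib.MP_3498ef_gt.Final

set_option autoImplicit false

namespace Pool.Agent.Results.MP_3498ef_gt.ParabolicQuadric

open Pool.Agent.Lib.MP_3498ef_gt

/-- There is a Hilbert plane `Ω` that is not a model of the hyperbolic plane and in which some
parabolic conic `C` is a quadric; moreover `C` is infinite and is the part inside `Ω` of a
nondegenerate ellipse. -/
theorem result : ∃ Ω C : Set Plane, IsHilbertPlane Ω ∧ IsParabolicConic Ω C ∧ IsQuadric Ω C ∧
    C.Infinite ∧ (∃ Q : Set Plane, IsEllipse Q ∧ C = Ω ∩ Q) ∧ ¬ IsHyperbolicModel Ω :=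
  main

end Pool.Agent.Results.MP_3498ef_gt.ParabolicQuadric
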